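import Mathlib

namespace Pool.Agent.Results.MP_3aa442_co.BlockDS

open Matrix

/-- symmetric doubly stochastic matrices -/
def SDS (n : ℕ) : Set (Matrix (Fin n) (Fin n) ℝ) :=
  {A | A ∈ doublyStochastic ℝ (Fin n) ∧ A.IsSymm}

/-- the matrix C_n -/
noncomputable def C (n : ℕ) : Matrix (Fin n) (Fin n) ℝ :=
  Matrix.of fun i j => if i = j then 0 else 1 / (n - 1)

/-- determined by its spectrum among symmetric doubly stochastic matrices -/
def DS {n : ℕ} (A : Matrix (Fin n) (Fin n) ℝ) : Prop :=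
  ∀ B ∈ SDS n, IsConj A B → ∃ σ : Equiv.Perm (Fin n), B = (σ.permMatrix ℝ)ᵀ * A * σ.permMatrix ℝ

noncomputable def A : Matrix (Fin 4) (Fin 4) ℝ :=
  !![1/2, 1/2, 0, 0; 1/2, 1/2, 0, 0; 0, 0, 0, 1; 0, 0, 1, 0]

lemma core (B N : Matrix (Fin 4) (Fin 4) ℝ) (h0 : ∀ i j, 0 ≤ B i j) (h1 : ∀ i, ∑ j, B i j = 1)
    (hs : ∀ i j, B i j = B j i) (hN : ∀ i j, N i j = (if i = j then 1 else 0) - ∑ k, B i k * B k j)
    (hm : ∀ i j k l, N i j * N k l = N i l * N k j) (hz : ∀ i j, ∑ k, B i k * N k j = 0)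
    (ht : ∑ i, B i i = 1) (hr : ∀ i, ∑ j, N i j = 0) (h01 : N 0 1 ≠ 0) : B = A := by
  have neg : ∀ i j, i ≠ j → N i j ≤ 0 := fun i j h => by
    rw [hN, if_neg h, zero_sub, neg_nonpos]
    exact Finset.sum_nonneg fun k _ => mul_nonneg (h0 _ _) (h0 _ _)
  have sym : ∀ i j, N i j = N j i := fun i j => by
    simp only [hN, eq_comm (a := i), hs i, hs _ j, mul_comm]
  have n01 : N 0 1 < 0 := lt_of_le_of_ne (neg 0 1 (by decide)) h01
  have r0 := hr 0
  have r1 := hr 1
  have r2 := hr 2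
  have r3 := hr 3
  simp only [Fin.sum_univ_four] at r0 r1 r2 r3 ht
  have a02 := neg 0 2 (by decide)
  have a03 := neg 0 3 (by decide)
  have a12 := neg 1 2 (by decide)
  have a13 := neg 1 3 (by decide)
  have a23 := neg 2 3 (by decide)
  rw [sym 1 0] at r1
  have m1 := hm 0 1 2 0
  have m2 := hm 0 1 3 0
  have m3 := hm 0 2 3 0
  rw [sym 2 0, sym 2 1] at m1 r2
  rw [sym 3 0, sym 3 1] at m2 r3
  rw [sym 3 0, sym 3 2] at m3
  rw [sym 3 2] at r3
  have z02 : N 0 2 = 0 := by nlinarith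
  have z03 : N 0 3 = 0 := by nlinarith
  have z12 : N 1 2 = 0 := by nlinarith
  have z13 : N 1 3 = 0 := by nlinarith
  have z23 : N 2 3 = 0 := by nlinarith
  have c : ∀ k, B k 0 = B k 1 := fun k => by
    have := hz k 1
    simp only [Fin.sum_univ_four, sym 2 1, sym 3 1, z12, z13] at this
    have e : N 1 1 = -N 0 1 := by linarith
    rw [e] at this
    exact mul_right_cancel₀ h01 (by linarith)
  have e2 := hN 2 2
  have e3 := hN 3 3
  have s0 := h1 0
  have s1 := h1 1
  have s2 := h1 2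
  have s3 := h1 3
  simp only [Fin.sum_univ_four, if_true, hs _ 2, ← c 2] at e2 s2
  simp only [Fin.sum_univ_four, if_true, hs _ 3, ← c 3] at e3 s3
  simp only [Fin.sum_univ_four, hs _ 2, hs _ 3, ← c] at s0 s1
  have b20 : B 2 0 = 0 := by
    nlinarith [h0 2 0, h0 2 2, h0 2 3, mul_nonneg (h0 2 0) (h0 2 2),
      mul_nonneg (h0 2 0) (h0 2 3), mul_nonneg (h0 2 2) (h0 2 3)]
  have b30 : B 3 0 = 0 := by
    nlinarith [h0 3 0, h0 3 2, h0 3 3, mul_nonneg (h0 3 0) (h0 3 2),
      mul_nonneg (h0 3 0) (h0 3 3), mul_nonneg (h0 3 2) (h0 3 3)]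
  have := c 0; have := c 1; have := c 2; have := c 3; have := h0 2 2; have := h0 3 3
  have := hs 0 2; have := hs 0 3; have := hs 1 2; have := hs 1 3; have := hs 2 3
  ext i j; fin_cases i <;> fin_cases j <;> simp [A] <;> linarith

lemma ds : DS A := by
  rintro B ⟨hB, hs⟩ ⟨S, hS⟩
  have hS' : B = S * A * S⁻¹ := by rw [hS.eq, mul_assoc, S.mul_inv, mul_one]
  have hA : 1 - A * A = vecMulVec ![1/2, -1/2, 0, 0] ![1, -1, 0, 0] := by
    ext i j; fin_cases i <;> fin_cases j <;> simp [A, vecMulVec_apply] <;> norm_num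
  have hA3 : A * (1 - A * A) = 0 := by
    ext i j; fin_cases i <;> fin_cases j <;> simp [A, mul_sub] <;> norm_num
  have hN : 1 - B * B = S * (1 - A * A) * (S⁻¹ : GL (Fin 4) ℝ) := by
    rw [hS']; simp [mul_sub, sub_mul, mul_assoc]
  have hz : B * (1 - B * B) = 0 := by
    rw [hN, hS', mul_assoc, mul_assoc, mul_assoc, Units.inv_mul_cancel_left, ← mul_assoc A, hA3]
    simp
  have ht : ∑ i, B i i = 1 := by
    show trace B = 1
    rw [hS', trace_units_conj]; simp [A, trace, Fin.sum_univ_four]; norm_num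
  have htN : trace (1 - B * B) = 1 := by
    rw [hN, trace_units_conj, hA]; simp [trace, Fin.sum_univ_four]; norm_num
  have hm : ∀ i j k l, (1 - B * B) i j * (1 - B * B) k l = (1 - B * B) i l * (1 - B * B) k j := by
    rw [hN, hA, mul_vecMulVec, vecMulVec_mul]
    intro i j k l
    simp only [vecMulVec_apply]; ring
  have hr : ∀ i, ∑ j, (1 - B * B) i j = 0 := fun i => by
    have := sum_row_of_mem_doublyStochastic (mul_mem hB hB) i
    simp [this, one_apply]
  obtain ⟨i, j, hij, hn⟩ : ∃ i j, i ≠ j ∧ (1 - B * B) i j ≠ 0 := by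
    by_contra h
    push Not at h
    have : ∀ i, (1 - B * B) i i = 0 := fun i => by
      rw [← hr i, Finset.sum_eq_single i (fun j _ e => h i j e.symm) (by simp)]
    simp only [trace, diag, this] at htN
    simp at htN
  obtain ⟨σ, rfl, rfl⟩ : ∃ σ : Equiv.Perm (Fin 4), σ 0 = i ∧ σ 1 = j := by
    clear hn; revert i j; decide
  have := core (B.submatrix σ σ) ((1 - B * B).submatrix σ σ)
    (fun _ _ => nonneg_of_mem_doublyStochastic hB)
    (fun i => (Equiv.sum_comp σ _).trans (sum_row_of_mem_doublyStochastic hB _))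
    (fun i j => (hs.apply _ _).symm)
    (fun i j => by
      simp only [submatrix_apply, Matrix.sub_apply, Matrix.one_apply, Matrix.mul_apply, σ.injective.eq_iff]
      rw [Equiv.sum_comp σ fun k => B (σ i) k * B k (σ j)])
    (fun _ _ _ _ => hm _ _ _ _)
    (fun i j => (Equiv.sum_comp σ fun k => B (σ i) k * (1 - B * B) k (σ j)).trans
      (congrFun (congrFun hz _) _))
    ((Equiv.sum_comp σ fun k => B k k).trans ht) (fun i => (Equiv.sum_comp σ _).trans (hr _)) hn
  refine ⟨σ, ?_⟩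
  rw [← this, transpose_permMatrix, PEquiv.toMatrix_toPEquiv_mul, PEquiv.mul_toMatrix_toPEquiv]
  ext i j
  simp

/-- A DS matrix of trace one lying on none of the conjectured segments. -/
theorem result : ∃ A ∈ SDS 4, 0 < A.trace ∧ DS A ∧ A ∉ segment ℝ 1 (C 4) ∧
    ∀ P ∈ (SDS 4).extremePoints ℝ, A ∉ segment ℝ 1 P ∧ A ∉ segment ℝ (C 4) P := by
  have mem : ∀ a : ℝ, 0 ≤ a → a ≤ 1 →
      !![a, 1 - a, 0, 0; 1 - a, a, 0, 0; 0, 0, 0, 1; 0, 0, 1, 0] ∈ SDS 4 := fun a h0 h1 => by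
    refine ⟨mem_doublyStochastic_iff_sum.mpr ⟨fun i j => ?_, fun i => ?_, fun i => ?_⟩, ?_⟩
    · fin_cases i <;> fin_cases j <;> simp [h0, h1]
    · fin_cases i <;> simp [Fin.sum_univ_four]
    · fin_cases i <;> simp [Fin.sum_univ_four]
    · ext i j; fin_cases i <;> fin_cases j <;> simp
  have ne : A ∉ (SDS 4).extremePoints ℝ := fun h => by
    have := h.2 (mem 0 le_rfl zero_le_one) (mem 1 zero_le_one le_rfl)
      ⟨1 / 2, 1 / 2, by norm_num, by norm_num, by norm_num, by
        ext i j; fin_cases i <;> fin_cases j <;> simp [A] <;> norm_num⟩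
    have := congrFun (congrFun this 0) 0
    simp [A] at this
  refine ⟨A, by convert mem (1 / 2) (by norm_num) (by norm_num) using 1; norm_num [A],
    by simp [A, trace, Fin.sum_univ_four], ds, ?_, fun P hP => ⟨?_, ?_⟩⟩
  · rintro ⟨a, b, ha, hb, hab, h⟩
    have h1 := congrFun (congrFun h 0) 1
    have h2 := congrFun (congrFun h 0) 2
    simp [A, C] at h1 h2
    norm_num at h2
    simp [h2] at h1
  · rintro ⟨a, b, ha, hb, hab, h⟩
    have h1 := congrFun (congrFun h 2) 2
    have h2 := mul_nonneg hb (nonneg_of_mem_doublyStochastic hP.1.1 (i := 2) (j := 2))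
    simp [A] at h1
    obtain rfl : a = 0 := by linarith
    obtain rfl : b = 1 := by linarith
    exact ne (by simpa [← h] using hP)
  · rintro ⟨a, b, ha, hb, hab, h⟩
    have h1 := congrFun (congrFun h 0) 2
    have h2 := mul_nonneg hb (nonneg_of_mem_doublyStochastic hP.1.1 (i := 0) (j := 2))
    simp [A, C] at h1
    norm_num at h1
    obtain rfl : a = 0 := by linarith
    obtain rfl : b = 1 := by linarith
    exact ne (by simpa [← h] using hP)

end Pool.Agent.Results.MP_3aa442_co.BlockDS
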